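import Pool.Agent.Helper58.TQ.RLP

/-! # Module LEARN: existence of the learning program -/

namespace Pool.Agent.Helper61.TQ

open Pool.Agent.Helper58 Pool.Agent.Helper53.CL Pool.Agent.Helper52.Grid

theorem LEARN_ind (p : Bool) (q : Prop) (h : p = false → q) : 1 ≤ ind (p = true) + ind q := by
  unfold ind
  cases p with
  | true =>
    simp only [if_true]
    split_ifs <;> norm_num
  | false =>
    rw [if_pos (h rfl)]
    split_ifs <;> norm_num

theorem st_LEARN (hRND : ST_RND) (hZERO : ST_ZERO) (hRLP : ST_RLP) (hPROB : ST_PROB)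
    (hAVG : ST_AVG) (hPP : ST_PP) : ST_LEARN := by
  intro S
  obtain ⟨a1, a2, -, a4, -⟩ := hAVG
  refine ⟨{ R := S.RL
            t := fun n => (n + 1) * (JJ n + 1)
            ℓ := fun n => (n + 1) * (JJ n * hs n)
            good := fun n prev => (state n prev).2.1
            alg := fun n prev X => (state n prev).2.2.any (fun ρ => S.solves ρ X)
            pR := hRLP S
            pt := ?_
            pℓ := ?_
            pgood := ?_
            palg := ?_
            sound := ?_
            complete := ?_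
            learn := ?_ }⟩
  · have h1 : PTf (fun n : ℕ => JJ n) := RLP_JJ (by fun_prop)
    fun_prop
  · have h1 : PTf (fun n : ℕ => JJ n) := RLP_JJ (by fun_prop)
    have h2 : PTf (fun n : ℕ => hs n) := RLP_hs (by fun_prop)
    fun_prop
  · have h1 : PTf (fun x : ℕ × List W => state x.1 x.2) := RLP_state (by fun_prop) (by fun_prop)
    fun_prop
  · have h1 : PTf (fun x : (ℕ × List W) × W => state x.1.1 x.1.2) :=
      RLP_state (by fun_prop) (by fun_prop)
    refine PTf.any (by fun_prop) ?_
    exact PTf.comp (g := fun x : W × W => S.solves x.1 x.2) (hPP.2 S)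
      (f := fun p : ((ℕ × List W) × W) × W => (p.2, p.1.2)) (by fun_prop)
  · intro n a X h
    obtain ⟨ρ, _, hρ⟩ := List.any_eq_true.mp h
    exact (S.hV X (S.P ρ X) hρ).2
  · intro n r _ hg X hX hXK
    obtain ⟨ρ, hρ, hs⟩ := hZERO S n r _ hg X hX hXK
    exact List.any_eq_true.mpr ⟨ρ, hρ, hs⟩
  · rintro n ⟨ρ, hρ⟩
    have h1 := hPROB S n ρ hρ
    have h2 : avg ((n + 1) * (JJ n * hs n)) (fun _ => (1 : ℝ)) ≤
        avg ((n + 1) * (JJ n * hs n)) (fun r =>
          ind ((state n (res n (S.RL n r) ((n + 1) * (JJ n + 1)))).2.1 = true) +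
          ind (S.fails n (n + 1) [] r)) := by
      refine a1 _ _ _ fun w hw => ?_
      exact LEARN_ind _ _ (hRND S n w hw)
    rw [a4, a2] at h2
    linarith

end Pool.Agent.Helper61.TQ

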