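import Pool.Agent.Helper61.TQ.Core

/-! # Module LEW: words as numbers -/

namespace Pool.Agent.Helper61.TQ

open Pool.Agent.Helper58 Pool.Agent.Helper53.CL Pool.Agent.Helper52.Grid

theorem LEW_foldl (u : W) : ∀ n : ℕ, u.foldl (fun n b => 2 * n + b.toNat) n =
    n * 2 ^ u.length + val u := by
  induction u with
  | nil => intro n; simp [val]
  | cons b u ih =>
    intro n
    have h1 : val (b :: u) = b.toNat * 2 ^ u.length + val u := by
      unfold val
      rw [List.foldl_cons, ih]
      simp [val]
    rw [List.foldl_cons, ih, h1, List.length_cons]
    ring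

theorem LEW_cons (b : Bool) (u : W) : val (b :: u) = b.toNat * 2 ^ u.length + val u := by
  unfold val
  rw [List.foldl_cons, LEW_foldl]
  simp [val]

theorem LEW_append (u v : W) : val (u ++ v) = val u * 2 ^ v.length + val v := by
  have h : val (u ++ v) = v.foldl (fun n b => 2 * n + b.toNat) (val u) := by
    unfold val; rw [List.foldl_append]
  rw [h, LEW_foldl]

theorem LEW_lt (u : W) : val u < 2 ^ u.length := by
  induction u with
  | nil => simp [val]
  | cons b u ih =>
    rw [LEW_cons, List.length_cons, pow_succ]
    have : b.toNat ≤ 1 := Bool.toNat_le b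
    have h2 : b.toNat * 2 ^ u.length ≤ 1 * 2 ^ u.length := Nat.mul_le_mul_right _ this
    omega

theorem LEW_zer (n : ℕ) : val (zer n) = 0 := by
  induction n with
  | zero => rfl
  | succ n ih =>
    have : zer (n + 1) = false :: zer n := rfl
    rw [this, LEW_cons, ih]; simp

theorem LEW_one (n : ℕ) : val (one n) + 1 = 2 ^ n := by
  induction n with
  | zero => rfl
  | succ n ih =>
    have h1 : one (n + 1) = true :: one n := rfl
    have h2 : (one n).length = n := by simp [one]
    rw [h1, LEW_cons, h2, pow_succ, Bool.toNat_true]
    omega

theorem LEW_inj : ∀ u v : W, u.length = v.length → val u = val v → u = v := by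
  intro u
  induction u with
  | nil =>
    intro v h _
    exact (List.length_eq_zero_iff.mp h.symm).symm
  | cons b u ih =>
    intro v h hv
    cases v with
    | nil => simp at h
    | cons c v =>
      have hl : u.length = v.length := by simpa using h
      rw [LEW_cons, LEW_cons, hl] at hv
      have h1 := LEW_lt u
      have h2 := LEW_lt v
      rw [hl] at h1
      cases b <;> cases c <;> simp only [Bool.toNat_true, Bool.toNat_false] at hv
      · rw [ih v hl (by omega)]
      · omega
      · omega
      · rw [ih v hl (by omega)]

theorem LEW_state (l : List (Bool × Bool)) (s : ℕ) (hs : s ≠ 0) :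
    l.foldl (fun (s : ℕ) (p : Bool × Bool) =>
      if s = 0 then (if p.1 = p.2 then 0 else (bif p.2 then 1 else 2)) else s) s = s := by
  induction l generalizing s with
  | nil => rfl
  | cons p l ih =>
    rw [List.foldl_cons, if_neg hs]
    exact ih s hs

theorem LEW_le : ∀ u v : W, u.length = v.length → (leW u v = true ↔ val u ≤ val v) := by
  intro u
  induction u with
  | nil =>
    intro v h
    have : v = [] := List.length_eq_zero_iff.mp h.symm
    subst this
    simp [leW]
  | cons b u ih =>
    intro v h
    cases v with
    | nil => simp at h
    | cons c v =>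
      have hl : u.length = v.length := by simpa using h
      have h1 := LEW_lt u
      have h2 := LEW_lt v
      rw [LEW_cons, LEW_cons, hl]
      rw [hl] at h1
      have ih2 := ih v hl
      unfold leW at ih2 ⊢
      rw [List.zip_cons_cons, List.foldl_cons, if_pos rfl]
      cases b <;> cases c
      · simp only [if_true, Bool.toNat_false]
        rw [ih2]
        omega
      · simp only [Bool.false_eq_true, if_false, Bool.toNat_false, Bool.toNat_true, cond_true]
        rw [LEW_state _ 1 (by norm_num)]
        simp only [show (1 : ℕ) ≠ 2 by norm_num, decide_false, Bool.not_false, true_iff]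
        omega
      · simp only [if_false, Bool.toNat_false, Bool.toNat_true, cond_false,
          show (true = false) ↔ False by simp]
        rw [LEW_state _ 2 (by norm_num)]
        simp only [decide_true, Bool.not_true, Bool.false_eq_true, false_iff]
        omega
      · simp only [if_true, Bool.toNat_true]
        rw [ih2]
        omega

theorem LEW_last : ∀ u : W, val u ≠ 0 → ∃ (v : W) (k : ℕ), u = v ++ true :: zer k := by
  intro u
  induction u with
  | nil => intro h; exact absurd rfl h
  | cons b u ih =>
    intro h
    by_cases hu : val u = 0
    · have h1 : u = zer u.length :=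
        LEW_inj u (zer u.length) (by simp [zer]) (by rw [hu, LEW_zer])
      rw [LEW_cons, hu] at h
      cases b
      · simp at h
      · exact ⟨[], u.length, by rw [List.nil_append, ← h1]⟩
    · obtain ⟨v, k, hvk⟩ := ih hu
      exact ⟨b :: v, k, by rw [hvk]; rfl⟩

theorem st_LEW : ST_LEW := by
  refine ⟨LEW_le, LEW_inj, LEW_lt, LEW_zer, LEW_one, ?_, fun u b => LEW_cons b u, LEW_last⟩
  intro u k
  have h1 := LEW_one k
  have h2 : (zer k).length = k := by simp [zer]
  have h3 : (one k).length = k := by simp [one]
  rw [LEW_append, LEW_append, LEW_cons, LEW_cons, LEW_zer, List.length_cons, List.length_cons,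
    h2, h3, Bool.toNat_true, Bool.toNat_false]
  omega

end Pool.Agent.Helper61.TQ

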