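import Pool.Agent.Helper61.TQ.Core

/-! # Module ZERO: the learning program makes no error -/

namespace Pool.Agent.Helper61.TQ

open Pool.Agent.Helper58 Pool.Agent.Helper53.CL Pool.Agent.Helper52.Grid

theorem ZERO_succ (n : ℕ) (R : List W → W → Prop) (c : ℕ) :
    state n (res n R (c + 1)) = stepSt (JJ n) (state n (res n R c)) (ans n (R (res n R c))) := by
  unfold state
  rw [res, List.foldl_append]
  rfl

theorem st_ZERO (hANS : ST_ANS) : ST_ZERO := by
  intro S n r c
  induction c with
  | zero =>
    intro h
    exact absurd h (by simp [res, state, st0])
  | succ c ih =>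
    rw [ZERO_succ]
    unfold stepSt
    by_cases h1 : (state n (res n (S.RL n r) c)).1.2.length < JJ n
    · rw [if_pos h1]
      exact ih
    · rw [if_neg h1]
      cases h2 : (ans n (S.RL n r (res n (S.RL n r) c))).headD false with
      | true =>
        simp only [cond_true]
        exact ih
      | false =>
        simp only [cond_false]
        intro _ X hX hXK
        by_contra hcon
        push Not at hcon
        have h3 := (hANS n (S.RL n r (res n (S.RL n r) c))).2.1
        rw [h2] at h3
        have h4 := h3.mpr ⟨X, hX, by
          rw [Sys.RL, if_neg h1]
          exact ⟨hX, hXK, fun ρ hρ => by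
            have := hcon ρ hρ
            simpa using this⟩⟩
        exact absurd h4 (by simp)

end Pool.Agent.Helper61.TQ

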